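import Pool.Agent.H466.HP.Stm

/-!
# Task CONE: few points see a zero in the cone
-/

set_option autoImplicit false

namespace Pool.Agent.H115.HP

open Complex MeasureTheory Set Filter Topology
open Pool.Agent.H862.VK (Yz Yz_diff Yz_ne Yz_neg)
open Pool.Agent.H466.HP

theorem Yz_an : AnalyticOnNhd ℂ Yz univ := fun z _ => Yz_diff.analyticAt z

theorem fin_zeros (R : ℝ) : {b : ℂ | Yz b = 0 ∧ ‖b‖ ≤ R}.Finite := by
  by_contra hinf
  have hinf : {b : ℂ | Yz b = 0 ∧ ‖b‖ ≤ R}.Infinite := hinf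
  obtain ⟨z, -, hacc⟩ := hinf.exists_accPt_of_subset_isCompact (isCompact_closedBall 0 R)
    (fun b hb => mem_closedBall_zero_iff.2 hb.2)
  have hfr : ∃ᶠ w in 𝓝[≠] z, Yz w = 0 :=
    (accPt_iff_frequently_nhdsNE.1 hacc).mono (fun w hw => hw.1)
  have h0 := Yz_an.eqOn_zero_of_preconnected_of_frequently_eq_zero isPreconnected_univ
    (mem_univ z) hfr
  exact Yz_ne (z := 1) (by norm_num) (h0 (mem_univ 1))

theorem one_le_mu {b : ℂ} (hb : Yz b = 0) : 1 ≤ mu b := by
  have h1 : analyticOrderAt Yz b ≠ 0 := (Yz_diff.analyticAt b).analyticOrderAt_ne_zero.2 hb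
  have h2 : analyticOrderAt Yz b ≠ ⊤ := by
    intro h
    have h3 := analyticOrderAt_eq_top.1 h
    have h4 := Yz_an.eqOn_zero_of_preconnected_of_eventuallyEq_zero isPreconnected_univ
      (mem_univ b) h3
    exact Yz_ne (z := 1) (by norm_num) (h4 (mem_univ 1))
  have h3 : analyticOrderNatAt Yz b ≠ 0 := by
    unfold analyticOrderNatAt
    intro h
    rcases (ENat.toNat_eq_zero.1 h) with h | h
    · exact h1 h
    · exact h2 h
  unfold mu
  exact_mod_cast Nat.one_le_iff_ne_zero.2 h3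

theorem re_lt {b : ℂ} (hb : Yz b = 0) : |b.re| < 1 / 2 := by
  rw [abs_lt]
  constructor
  · by_contra h
    have h2 : Yz (-b) = 0 := by rw [Yz_neg, hb]
    refine Yz_ne (z := -b) ?_ h2
    rw [Complex.neg_re]
    linarith
  · by_contra h
    exact Yz_ne (z := b) (by linarith) hb

/-- elementary inequality for one zero -/
theorem one_zero {L β y0 : ℝ} (hL : 0 < L) (hβ : 0 ≤ β) (hy : y0 / 4 ≤ β) :
    β ≤ 32 / L * (Real.exp (-(y0 * L / 128)) * Real.exp (L / 4 * β)) := by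
  have h1 : L * β / 32 ≤ Real.exp (L * β / 32) := by
    have := Real.add_one_le_exp (L * β / 32)
    linarith
  have h2 : Real.exp (L * β / 32) ≤ Real.exp (-(y0 * L / 128)) * Real.exp (L / 4 * β) := by
    rw [← Real.exp_add]
    apply Real.exp_le_exp.2
    nlinarith [mul_nonneg hL.le (sub_nonneg.2 hy), mul_nonneg hL.le hβ]
  have h3 : β = 32 / L * (L * β / 32) := by
    field_simp
  calc β = 32 / L * (L * β / 32) := h3
    _ ≤ 32 / L * (Real.exp (-(y0 * L / 128)) * Real.exp (L / 4 * β)) :=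
        mul_le_mul_of_nonneg_left (h1.trans h2) (by positivity)

theorem cone (h : S_EXPW) : S_CONE := by
  intro M hM
  obtain ⟨C, T0, hC, hT0, h⟩ := h
  refine ⟨512 * M * C, max T0 (8 * M), by positivity, le_max_of_le_left hT0, ?_⟩
  intro T hT y0 hy0
  have hT1 : T0 ≤ T := (le_max_left _ _).trans hT
  have hT2 : 8 * M ≤ T := (le_max_right _ _).trans hT
  have hTp : 1 < T := by linarith
  have hL : 0 < Real.log T := Real.log_pos hTp
  obtain ⟨L, hLe⟩ : ∃ L, L = Real.log T := ⟨_, rfl⟩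
  rw [← hLe] at hL
  have hfin : {b : ℂ | (Yz b = 0 ∧ T / 4 ≤ |b.im| ∧ |b.im| ≤ 8 * T) ∧ y0 / 4 < |b.re|}.Finite := by
    refine (fin_zeros (1 / 2 + 8 * T)).subset ?_
    rintro b ⟨⟨hb, -, hb2⟩, -⟩
    refine ⟨hb, ?_⟩
    have := Complex.norm_le_abs_re_add_abs_im b
    have h2 := (re_lt hb).le
    linarith
  obtain ⟨B, hB⟩ : ∃ B : Finset ℂ, B = hfin.toFinset := ⟨_, rfl⟩
  have hBm : ∀ b, b ∈ B ↔ (Yz b = 0 ∧ T / 4 ≤ |b.im| ∧ |b.im| ≤ 8 * T) ∧ y0 / 4 < |b.re| := by
    intro b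
    rw [hB, Set.Finite.mem_toFinset]
    rfl
  have hsub : {t : ℝ | t ∈ Icc T (2 * T) ∧ ¬ CF t y0 M} ⊆
      ⋃ b ∈ B, Ioo (b.im - 8 * M * |b.re|) (b.im + 8 * M * |b.re|) := by
    rintro t ⟨⟨ht1, ht2⟩, ht⟩
    unfold CF at ht
    push Not at ht
    obtain ⟨b, hb, hb1, hb2⟩ := ht
    rw [div_lt_iff₀ (by positivity)] at hb2
    have h3 := re_lt hb
    have h4 : |b.im - t| < 4 * M := by nlinarith
    have h5 := abs_lt.1 h4
    have h6 := abs_lt.1 hb2
    rw [mem_iUnion₂]
    have hpos : 0 < b.im := by linarith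
    refine ⟨b, (hBm b).2 ⟨⟨hb, ?_, ?_⟩, hb1⟩, ?_, ?_⟩
    · rw [abs_of_pos hpos]
      linarith
    · rw [abs_of_pos hpos]
      linarith
    · linarith
    · linarith
  have hsum : ∑ b ∈ B, 16 * M * |b.re| ≤ 512 * M * C * T * Real.exp (-(y0 * L / 128)) := by
    have h1 := h T hT1 B (fun b hb => ((hBm b).1 hb).1)
    rw [← hLe] at h1
    have h2 : ∀ b ∈ B, 16 * M * |b.re| ≤
        16 * M * (32 / L * Real.exp (-(y0 * L / 128))) * (mu b * Real.exp (L / 4 * |b.re|)) := by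
      intro b hb
      have hb' := (hBm b).1 hb
      have h3 := one_zero hL (abs_nonneg b.re) hb'.2.le
      have h4 := one_le_mu hb'.1.1
      have h5 : (0 : ℝ) ≤ 32 / L * Real.exp (-(y0 * L / 128)) * Real.exp (L / 4 * |b.re|) := by
        positivity
      have h6 : |b.re| ≤ 32 / L * Real.exp (-(y0 * L / 128)) * Real.exp (L / 4 * |b.re|) * mu b := by
        calc |b.re| ≤ 32 / L * Real.exp (-(y0 * L / 128)) * Real.exp (L / 4 * |b.re|) := by
              rw [mul_assoc]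
              exact h3
          _ ≤ _ := le_mul_of_one_le_right h5 h4
      calc 16 * M * |b.re| ≤ 16 * M *
            (32 / L * Real.exp (-(y0 * L / 128)) * Real.exp (L / 4 * |b.re|) * mu b) :=
              mul_le_mul_of_nonneg_left h6 (by positivity)
        _ = _ := by ring
    refine (Finset.sum_le_sum h2).trans ?_
    rw [← Finset.mul_sum]
    refine (mul_le_mul_of_nonneg_left h1 (by positivity)).trans (le_of_eq ?_)
    field_simp
    ring
  calc volume {t : ℝ | t ∈ Icc T (2 * T) ∧ ¬ CF t y0 M}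
      ≤ volume (⋃ b ∈ B, Ioo (b.im - 8 * M * |b.re|) (b.im + 8 * M * |b.re|)) :=
        measure_mono hsub
    _ ≤ ∑ b ∈ B, volume (Ioo (b.im - 8 * M * |b.re|) (b.im + 8 * M * |b.re|)) :=
        measure_biUnion_finset_le _ _
    _ = ∑ b ∈ B, ENNReal.ofReal (16 * M * |b.re|) := by
        refine Finset.sum_congr rfl fun b _ => ?_
        rw [Real.volume_Ioo]
        congr 1
        ring
    _ = ENNReal.ofReal (∑ b ∈ B, 16 * M * |b.re|) := by
        rw [ENNReal.ofReal_sum_of_nonneg fun b _ => by positivity]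
    _ ≤ ENNReal.ofReal (512 * M * C * T * Real.exp (-(y0 * Real.log T / 128))) := by
        rw [← hLe]
        exact ENNReal.ofReal_le_ofReal hsum

end Pool.Agent.H115.HP
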